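import Pool.Agent.R952.IQMain

/-!
# MP_87e9f0_pr, Q1: interference queueing networks are unstable above the critical rate

Affirmative answer, for every dimension and every interference sequence, also at the critical rate.
The definitions are in `Pool/Agent/R952/IQDefs.lean`: `Interference` (interference sequences),
`rate` (departure rates), `arrive`, `depart`, `gen` (the generator), `IsLocal` (bounded functions of
finitely many queues), `NetworkLaw` (the laws at time `t` of the Markov process with this generator,
started with all queues empty) and `StableAt` (convergence in distribution of the length of one queue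
to an almost surely finite random variable).

The theorem `law_unique` below records that the laws are determined by `NetworkLaw`.

Proof. Let `g = min(·, K)`. The time derivative of
`(1/2) E (g(x_0)^2 + ∑_{k ≠ 0} a_k g(x_0) g(x_k))` is computed with the forward equation and the
translation invariance of the law; it is at least `(λ/2) P(x_0 < K) - K P(x_0 = K)` as soon as
`λ ∑ a_j ≥ 1`. As the function is bounded, a limit law `q` would satisfy
`K q(K) ≥ (λ/2) ∑_{j < K} q(j)` for all `K`, so that `q(K) ≥ c/K` and `∑ q(K) = ∞`.
-/

set_option autoImplicit false

open MeasureTheory Filter Topology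

namespace Pool.Agent.Results.MP_87e9f0_pr.UnstableAboveCritical

open Pool.Agent.R952.IQ

/-- The law of the network at time `t` is unique. -/
theorem law_unique {d : ℕ} {a : Site d → ℝ} {lam : ℝ} (ha : Interference a) (hlam : 0 ≤ lam)
    {μ ν : ℝ → Measure (Conf d)} (hμ : NetworkLaw a lam μ) (hν : NetworkLaw a lam ν)
    (t : ℝ) (ht : 0 ≤ t) (f : Conf d → ℝ) (hf : IsLocal f) :
    ∫ x, f x ∂(μ t) = ∫ x, f x ∂(ν t) :=
  unique ha hlam hμ hν t ht f hf

/-- **Instability above (and at) the critical rate.** For every dimension `d`, every interference
sequence `a` and every arrival rate `lam ≥ 1 / ∑ a_j`, in the interference queueing network started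
with all queues empty the queue length at no site converges in distribution to an almost surely
finite random variable. -/
theorem result (d : ℕ) (a : Site d → ℝ) (ha : Interference a) (lam : ℝ)
    (hlam : 1 / ∑ᶠ j, a j ≤ lam) (μ : ℝ → Measure (Conf d)) (hμ : NetworkLaw a lam μ)
    (i : Site d) : ¬ StableAt μ i := by
  have hpos : 0 < ∑ j ∈ ha.S, a j := by
    have h := Finset.single_le_sum (f := a) (fun j _ => ha.nonneg j) ha.zero_mem
    rw [ha.one] at h
    linarith
  rw [suma_eq ha] at hlam
  have hlam0 : 0 ≤ lam := (by positivity : (0 : ℝ) ≤ 1 / ∑ j ∈ ha.S, a j).trans hlam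
  refine unstable ha hlam0 ?_ hμ i
  rwa [div_le_iff₀ hpos] at hlam

end Pool.Agent.Results.MP_87e9f0_pr.UnstableAboveCritical
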